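import Pool.Agent.Helper18_X3.Defs

/-!
# AWC, part X4: the closed family with abelian Sylow subgroups of rank at most two
-/

open scoped BigOperators

noncomputable section

namespace Pool.Agent.PP.X4

open Pool.Agent.Helper51_AWC Pool.Agent.Helper79_WRA Pool.Agent.PP Pool.Agent.PP.X2

/-- The Sylow `ℓ`-subgroups of `S` are abelian and generated by two elements. -/
def RkSyl (ℓ : ℕ) (S : Type) [Group S] : Prop := ∃ P : Sylow ℓ S,
  (∀ x y : P, x * y = y * x) ∧ ∃ x y : P, Subgroup.closure ({x, y} : Set P) = ⊤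

/-- The simple groups `S` with abelian Sylow `ℓ`-subgroups generated by two elements, the groups
`PSL_2(K)` over finite fields of characteristic `ℓ`, and the simple groups of Lie type in
characteristic `ℓ` such that all automorphisms of order a power of `ℓ` are inner or all simple
groups of order divisible by `ℓ` involved in `S` are of Lie type in characteristic `ℓ` or have
abelian Sylow `ℓ`-subgroups generated by two elements. -/
def GoodR (ℓ : ℕ) : Fam := fun S _ _ => RkSyl ℓ S ∨
  (∃ (K : Type) (_ : Field K) (_ : Finite K), CharP K ℓ ∧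
    Nonempty (S ≃* Matrix.ProjectiveSpecialLinearGroup (Fin 2) K)) ∨
  (X1.LieType ℓ S ∧ ((∀ α : MulAut S, (∃ n : ℕ, α ^ ℓ ^ n = 1) → ∃ s : S, α = MulAut.conj s) ∨
    ∀ (S' : Type) [Group S'] [Finite S'], NonabSimple S' → ℓ ∣ Nat.card S' → Involves S S' →
      X1.LieType ℓ S' ∨ RkSyl ℓ S'))

/-- The simple groups of order prime to `ℓ`, the simple groups in `GoodR ℓ` and those in `𝒜`. -/
def AdmR (ℓ : ℕ) (𝒜 : Fam) : Fam := fun S _ _ => ¬ ℓ ∣ Nat.card S ∨ GoodR ℓ S ∨ 𝒜 S

end Pool.Agent.PP.X4
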