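import Pool.Agent.Helper18_X3.Cyc
import Pool.Agent.Helper66_RK2.Grp
import Pool.Agent.Helper66_X4.Defs

/-!
# AWC, part X4: groups with abelian Sylow subgroups of rank at most two
-/

noncomputable section

namespace Pool.Agent.PP.X4

open Pool.Agent.PP Pool.Agent.PP.X3 Pool.Agent.PP.RK2

theorem rk2_surj {Q R : Type} [Group Q] [Group R] (f : Q →* R) (hf : Function.Surjective f)
    (h : Rk2 Q) : Rk2 R := by
  obtain ⟨hc, x, y, hxy⟩ := h
  refine ⟨fun a b => ?_, f x, f y, ?_⟩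
  · obtain ⟨a, rfl⟩ := hf a
    obtain ⟨b, rfl⟩ := hf b
    rw [← map_mul, ← map_mul, hc]
  · have h1 := congrArg (Subgroup.map f) hxy
    rw [MonoidHom.map_closure, Set.image_pair, Subgroup.map_top_of_surjective f hf] at h1
    exact h1

theorem rk2_of_cyc {Q : Type} [Group Q] (h : IsCyclic Q) : Rk2 Q := by
  obtain ⟨g, hg⟩ := h.exists_generator
  refine ⟨fun a b => ?_, g, g, ?_⟩
  · obtain ⟨m, rfl⟩ := Subgroup.mem_zpowers_iff.1 (hg a)
    obtain ⟨n, rfl⟩ := Subgroup.mem_zpowers_iff.1 (hg b)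
    rw [← zpow_add, ← zpow_add, add_comm]
  · rw [Set.pair_eq_singleton, ← Subgroup.zpowers_eq_closure, Subgroup.eq_top_iff']
    exact hg

theorem rkSyl_iff {ℓ : ℕ} {S : Type} [Group S] : RkSyl ℓ S ↔ ∃ P : Sylow ℓ S, Rk2 P := Iff.rfl

theorem rkSyl_of_cySyl {ℓ : ℕ} {S : Type} [Group S] (h : CySyl ℓ S) : RkSyl ℓ S := by
  obtain ⟨P, hP⟩ := h
  exact ⟨P, rk2_of_cyc hP⟩

theorem rkSyl_of_inj {ℓ : ℕ} [hℓ : Fact ℓ.Prime] {K G : Type} [Group K] [Group G] [Finite G]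
    (f : K →* G) (hf : Function.Injective f) (h : RkSyl ℓ G) (Q : Sylow ℓ K) : Rk2 Q := by
  obtain ⟨P, hP⟩ := h
  have hQp : IsPGroup ℓ ((Q : Subgroup K).map f) := Q.isPGroup'.map _
  obtain ⟨P₁, hP₁⟩ := hQp.exists_le_sylow
  have e : P ≃* P₁ := Sylow.equiv P P₁
  have hc : Rk2 P₁ := rk2_surj e.toMonoidHom e.surjective hP
  let φ : Q →* P₁ := ((f.comp (Q : Subgroup K).subtype).codRestrict (P₁ : Subgroup G)
    (fun x => hP₁ ⟨x, x.2, rfl⟩))
  refine rk2_sub φ ?_ hc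
  intro a b hab
  have h1 : f a = f b := congrArg Subtype.val hab
  exact Subtype.ext (hf h1)

theorem rkSyl_sub {ℓ : ℕ} [hℓ : Fact ℓ.Prime] {G : Type} [Group G] [Finite G] (h : RkSyl ℓ G)
    (K : Subgroup G) (Q : Sylow ℓ K) : Rk2 Q :=
  rkSyl_of_inj K.subtype K.subtype_injective h Q

theorem rkSyl_surj {ℓ : ℕ} [hℓ : Fact ℓ.Prime] {K S : Type} [Group K] [Finite K] [Group S]
    (f : K →* S) (hf : Function.Surjective f) (h : RkSyl ℓ K) : RkSyl ℓ S := by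
  obtain ⟨Q, hQ⟩ := h
  refine ⟨Q.mapSurjective hf, ?_⟩
  exact rk2_surj (f.subgroupMap (Q : Subgroup K)) (f.subgroupMap_surjective (Q : Subgroup K)) hQ

theorem rkSyl_involves {ℓ : ℕ} [hℓ : Fact ℓ.Prime] {G S : Type} [Group G] [Finite G] [Group S]
    (h : RkSyl ℓ G) (hi : Involves G S) : RkSyl ℓ S := by
  obtain ⟨K, f, hf⟩ := hi
  obtain ⟨Q⟩ : Nonempty (Sylow ℓ K) := inferInstance
  exact rkSyl_surj f hf ⟨Q, rkSyl_sub h K Q⟩

theorem rkSyl_equiv {ℓ : ℕ} [hℓ : Fact ℓ.Prime] {S T : Type} [Group S] [Group T] [Finite T]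
    (e : S ≃* T) (h : RkSyl ℓ T) : RkSyl ℓ S := by
  obtain ⟨Q⟩ : Nonempty (Sylow ℓ S) := inferInstance
  exact ⟨Q, rkSyl_of_inj e.toMonoidHom e.injective h Q⟩

/-- subgroups of index prime to `ℓ` -/
theorem rkSyl_of_index {ℓ : ℕ} [hℓ : Fact ℓ.Prime] {G : Type} [Group G] [Finite G]
    (T : Subgroup G) (hT : ¬ ℓ ∣ T.index) (h : RkSyl ℓ T) : RkSyl ℓ G := by
  obtain ⟨P, hP⟩ := h
  let P₁ : Subgroup G := (P : Subgroup T).map T.subtype
  have h1 : IsPGroup ℓ P₁ := P.isPGroup'.map _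
  have h2 : ¬ ℓ ∣ P₁.index := by
    have h3 : P₁.index = (P : Subgroup T).index * T.index := by
      have h4 := Subgroup.index_map (P : Subgroup T) T.subtype
      rw [Subgroup.ker_subtype, sup_bot_eq, Subgroup.range_subtype] at h4
      exact h4
    rw [h3, hℓ.out.dvd_mul]
    rintro (h5 | h5)
    · exact P.not_dvd_index h5
    · exact hT h5
  refine ⟨h1.toSylow h2, ?_⟩
  exact rk2_surj (T.subtype.subgroupMap (P : Subgroup T))
    (T.subtype.subgroupMap_surjective (P : Subgroup T)) hP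

/-- central extensions with a kernel of order prime to `ℓ` -/
theorem rkSyl_of_ker {ℓ : ℕ} [hℓ : Fact ℓ.Prime] {G H : Type} [Group G] [Finite G] [Group H]
    [Finite H] (f : G →* H) (hk : ¬ ℓ ∣ Nat.card f.ker) (h : RkSyl ℓ H) : RkSyl ℓ G := by
  obtain ⟨Q⟩ : Nonempty (Sylow ℓ G) := inferInstance
  refine ⟨Q, ?_⟩
  obtain ⟨P, hP⟩ := h
  have hQp : IsPGroup ℓ ((Q : Subgroup G).map f) := Q.isPGroup'.map _
  obtain ⟨P₁, hP₁⟩ := hQp.exists_le_sylow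
  have e : P ≃* P₁ := Sylow.equiv P P₁
  have hc : Rk2 P₁ := rk2_surj e.toMonoidHom e.surjective hP
  let φ : Q →* P₁ := ((f.comp (Q : Subgroup G).subtype).codRestrict (P₁ : Subgroup H)
    (fun x => hP₁ ⟨x, x.2, rfl⟩))
  refine rk2_sub φ ?_ hc
  rw [← MonoidHom.ker_eq_bot_iff, eq_bot_iff]
  intro a ha
  have h1 : f a = 1 := congrArg Subtype.val ha
  obtain ⟨n, hn⟩ := Q.isPGroup' a
  have hn' : ((a : Q) : G) ^ ℓ ^ n = 1 := congrArg Subtype.val hn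
  have h2 : orderOf (a : G) ∣ Nat.card f.ker := by
    have h3 := orderOf_dvd_natCard (⟨(a : G), h1⟩ : f.ker)
    rwa [← Subgroup.orderOf_coe] at h3
  obtain ⟨m, -, hm⟩ := (Nat.dvd_prime_pow hℓ.out).mp (orderOf_dvd_of_pow_eq_one hn')
  rcases m with _ | m
  · rw [pow_zero, orderOf_eq_one_iff] at hm
    rw [Subgroup.mem_bot]
    exact Subtype.ext hm
  · exfalso
    apply hk
    refine Dvd.dvd.trans ?_ h2
    rw [hm]
    exact dvd_pow_self ℓ (Nat.succ_ne_zero m)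

end Pool.Agent.PP.X4
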