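import Pool.Agent.Helper66_X4.Rks
import Pool.Agent.Helper24_X2.Clf

/-!
# AWC, part X4: the family `GoodR` is closed
-/

open scoped BigOperators

noncomputable section

namespace Pool.Agent.PP.X4

open Pool.Agent.Helper51_AWC Pool.Agent.Helper79_WRA Pool.Agent.PP Pool.Agent.PP.X2
open Pool.Agent.PP.X3

theorem clfR (hpsq : PsqStmt) (hpsb : PsbStmt) (ℓ : ℕ) [Fact ℓ.Prime] :
    ClosedF ℓ (GoodR ℓ) := by
  intro S _ _ hS hl hSA Q hQ hp hint
  rcases hSA with h | ⟨K, _, _, hchar, ⟨e⟩⟩ | ⟨hR, h⟩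
  · right; right
    intro T _ _ hT hlT hinv
    exact Or.inl (rkSyl_involves h hinv.of_subgroup)
  · obtain ⟨Q', hQ'⟩ : ∃ Q' : Subgroup (MulAut (PS K)), Q' = Q.map (MulAut.congr e).toMonoidHom :=
      ⟨_, rfl⟩
    have hp' : IsPGroup ℓ Q' := by
      rw [hQ']
      exact hp.map _
    have g : fixN Q ≃* fixN Q' := by
      rw [hQ']
      exact H24.fixEquiv e Q
    rcases hpsq ℓ K Q' hp' with h | h | ⟨K₀, _, _, hch, h4, ⟨e'⟩⟩
    · left
      intro h0
      exact h (H96.opCore_bot_of_equiv g.symm h0)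
    · right; right
      intro T _ _ hT hlT hinv
      left
      apply rkSyl_of_cySyl
      apply cySyl_of_not_sq ℓ T
      intro h2
      apply h
      rw [← Nat.card_congr g.toEquiv]
      exact h2.trans (H24.card_of_involves hinv)
    · right; left
      have e2 : Oup ℓ (fixN Q) ≃* PS K₀ := (H24.oupEquiv ℓ g).trans e'
      have hsim : NonabSimple (PS K₀) := H24.ps_simple K₀ h4
      refine ⟨Unit, inferInstance, fun _ => Oup ℓ (fixN Q), ?_⟩
      refine ⟨fun i j hij => absurd (Subsingleton.elim i j) hij, iSup_const, ?_⟩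
      intro _
      refine ⟨PS K₀, inferInstance, inferInstance, hsim, (hpsb ℓ K₀).1, ?_, ?_⟩
      · right; left
        exact ⟨K₀, inferInstance, inferInstance, hch, ⟨MulEquiv.refl _⟩⟩
      · refine ⟨H24.commutator_top (H24.nonabSimple_of_equiv e2 hsim), e2.toMonoidHom,
          e2.surjective, ?_⟩
        rw [(MonoidHom.ker_eq_bot_iff _).2 e2.injective]
        exact bot_le
  · rcases h with h | h
    · exfalso
      obtain ⟨α, hα⟩ := Subgroup.ne_bot_iff_exists_ne_one.1 hQ
      obtain ⟨n, hn⟩ := hp α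
      obtain ⟨s, hs⟩ := h (α : MulAut S) ⟨n, by
        have := congrArg Subtype.val hn
        simpa using this⟩
      have h1 : (α : MulAut S) ∈ Q ⊓ (MulAut.conj (G := S)).range := ⟨α.2, ⟨s, hs.symm⟩⟩
      rw [hint, Subgroup.mem_bot] at h1
      exact hα (Subtype.ext h1)
    · right; right
      intro T _ _ hT hlT hinv
      rcases h T hT hlT hinv.of_subgroup with h1 | h1
      · right; right
        refine ⟨h1, Or.inr ?_⟩
        intro T' _ _ hT' hlT' hinv'
        exact h T' hT' hlT' (H96.Involves.trans' hinv.of_subgroup hinv')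
      · exact Or.inl h1

end Pool.Agent.PP.X4
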